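import Mathlib

set_option autoImplicit false

namespace Pool.Agent.Results.MP_8cf907_al.CompleteHypergraph

universe u

/-- A hypergraph with vertex set `V` and edge set `E`: each edge has a source and a range, which
are arbitrary subsets of `V` (empty edges and multi-edges are allowed). -/
structure Hypergraph (V E : Type u) where
  s : E → Finset V
  r : E → Finset V

/-- The complete hypergraph on `V`: the edges are all pairs `(X, Y)` of subsets of `V`, with
source `X` and range `Y`. -/
def complete (V : Type u) : Hypergraph V (Finset V × Finset V) where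
  s := Prod.fst
  r := Prod.snd

/-- A magic unitary over a unital C*-algebra `A`, indexed by the finite set `X`. -/
structure IsMagicUnitary {X : Type u} [Fintype X] {A : Type u} [CStarAlgebra A]
    (m : Matrix X X A) : Prop where
  proj : ∀ i j, IsStarProjection (m i j)
  row_sum : ∀ i, ∑ j, m i j = 1
  col_sum : ∀ j, ∑ i, m i j = 1

/-- The incidence matrix of a map `t : E → Finset V`, with entries `0, 1` in `A`. -/
def incidence {V E : Type u} [DecidableEq V] (A : Type u) [CStarAlgebra A] (t : E → Finset V) :
    Matrix V E A :=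
  fun v e => if v ∈ t e then 1 else 0

/-- The defining relations of the quantum automorphism group of a hypergraph, for two matrices
with entries in a unital C*-algebra `A`. -/
structure AutRelations {V E : Type u} [Fintype V] [DecidableEq V] [Fintype E]
    (Γ : Hypergraph V E) {A : Type u} [CStarAlgebra A]
    (uV : Matrix V V A) (uE : Matrix E E A) : Prop where
  magicV : IsMagicUnitary uV
  magicE : IsMagicUnitary uE
  source : incidence A Γ.s * uE = uV * incidence A Γ.s
  range : incidence A Γ.r * uE = uV * incidence A Γ.r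

/-- `(A, uV ⊕ uE)` is (a realisation of) the quantum automorphism group of `Γ`: `A` is the
universal unital C*-algebra for the relations `AutRelations Γ`. -/
structure IsQuantumAut {V E : Type u} [Fintype V] [DecidableEq V] [Fintype E]
    (Γ : Hypergraph V E) (A : Type u) [CStarAlgebra A]
    (uV : Matrix V V A) (uE : Matrix E E A) : Prop where
  rel : AutRelations Γ uV uE
  universal : ∀ (B : Type u) [CStarAlgebra B] (UV : Matrix V V B) (UE : Matrix E E B),
    AutRelations Γ UV UE →
      ∃! φ : A →⋆ₐ[ℂ] B, (∀ v w, φ (uV v w) = UV v w) ∧ (∀ e f, φ (uE e f) = UE e f)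

/-- `(A, m)` is (a realisation of) the quantum permutation group of the finite set `V`: `A` is
the universal unital C*-algebra generated by the entries of a magic unitary. -/
structure IsQuantumPerm (V : Type u) [Fintype V] (A : Type u) [CStarAlgebra A]
    (m : Matrix V V A) : Prop where
  rel : IsMagicUnitary m
  universal : ∀ (B : Type u) [CStarAlgebra B] (U : Matrix V V B),
    IsMagicUnitary U → ∃! φ : A →⋆ₐ[ℂ] B, ∀ v w, φ (m v w) = U v w

/-- The defining representation of the classical symmetric group: `permV v w` is the indicator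
function of `{σ | σ w = v}`. -/
def permV (V : Type u) [DecidableEq V] : Matrix V V (Equiv.Perm V → ℂ) :=
  fun v w σ => if σ w = v then 1 else 0

/-- The action on edges: `permE e f` is the indicator function of the set of all `σ` which map
the edge `f = (X', Y')` to the edge `e = (X, Y)`. -/
def permE (V : Type u) [DecidableEq V] :
    Matrix (Finset V × Finset V) (Finset V × Finset V) (Equiv.Perm V → ℂ) :=
  fun e f σ => if f.1.map σ.toEmbedding = e.1 ∧ f.2.map σ.toEmbedding = e.2 then 1 else 0

section basic

variable {X : Type u} [Fintype X] {A : Type u} [CStarAlgebra A]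

/-- Projections in a C*-algebra that sum to one are pairwise orthogonal. -/
lemma orth_of_sum_eq_one (p : X → A) (hp : ∀ i, IsStarProjection (p i)) (hs : ∑ i, p i = 1)
    {i j : X} (hij : i ≠ j) : p i * p j = 0 := by
  classical
  let _ := CStarAlgebra.spectralOrder A
  let _ := CStarAlgebra.spectralOrderedRing A
  have h1 : ∑ k, p j * p k * p j = p j := by
    rw [← Finset.sum_mul, ← Finset.mul_sum, hs, mul_one, (hp j).isIdempotentElem]
  have h2 : ∑ k ∈ Finset.univ.erase j, p j * p k * p j = 0 := by
    rw [← Finset.add_sum_erase _ _ (Finset.mem_univ j)] at h1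
    have : p j * p j * p j = p j := by
      rw [(hp j).isIdempotentElem, (hp j).isIdempotentElem]
    rw [this] at h1
    simpa using h1
  have h3 : ∀ k, p j * p k * p j = star (p k * p j) * (p k * p j) := by
    intro k
    rw [star_mul, (hp j).isSelfAdjoint.star_eq, (hp k).isSelfAdjoint.star_eq]
    calc p j * p k * p j = p j * (p k * p k) * p j := by rw [(hp k).isIdempotentElem]
      _ = _ := by noncomm_ring
  have h4 : ∀ k ∈ Finset.univ.erase j, 0 ≤ p j * p k * p j := by
    intro k _
    rw [h3]
    exact star_mul_self_nonneg _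
  have h5 := (Finset.sum_eq_zero_iff_of_nonneg h4).1 h2 i (by simp [hij])
  rw [h3] at h5
  exact (CStarRing.star_mul_self_eq_zero_iff _).1 h5

lemma IsMagicUnitary.orth_col {m : Matrix X X A} (hm : IsMagicUnitary m) {i i' : X} (j : X)
    (h : i ≠ i') : m i j * m i' j = 0 :=
  orth_of_sum_eq_one (fun i => m i j) (fun i => hm.proj i j) (hm.col_sum j) h

lemma IsMagicUnitary.orth_row {m : Matrix X X A} (hm : IsMagicUnitary m) {j j' : X} (i : X)
    (h : j ≠ j') : m i j * m i j' = 0 :=
  orth_of_sum_eq_one (fun j => m i j) (fun j => hm.proj i j) (hm.row_sum i) h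

lemma IsMagicUnitary.commute_col {m : Matrix X X A} (hm : IsMagicUnitary m) (i i' j : X) :
    Commute (m i j) (m i' j) := by
  by_cases h : i = i'
  · subst h; exact Commute.refl _
  · rw [Commute, SemiconjBy, hm.orth_col j h, hm.orth_col j (Ne.symm h)]

end basic

section relations

variable {V E : Type u} [Fintype V] [DecidableEq V] [Fintype E] {Γ : Hypergraph V E}
  {A : Type u} [CStarAlgebra A] {uV : Matrix V V A} {uE : Matrix E E A}

omit [Fintype V] in
lemma incidence_mul (t : E → Finset V) (v : V) (f : E) :
    (incidence A t * uE) v f = ∑ e ∈ Finset.univ.filter (fun e => v ∈ t e), uE e f := by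
  simp only [Matrix.mul_apply, incidence, ite_mul, one_mul, zero_mul, Finset.sum_ite,
    Finset.sum_const_zero, add_zero]

omit [Fintype E] in
lemma mul_incidence (t : E → Finset V) (v : V) (f : E) :
    (uV * incidence A t) v f = ∑ w ∈ t f, uV v w := by
  simp only [Matrix.mul_apply, incidence, mul_ite, mul_one, mul_zero, Finset.sum_ite,
    Finset.sum_const_zero, add_zero]
  congr 1
  ext; simp

lemma AutRelations.source_apply (h : AutRelations Γ uV uE) (v : V) (f : E) :
    ∑ e ∈ Finset.univ.filter (fun e => v ∈ Γ.s e), uE e f = ∑ w ∈ Γ.s f, uV v w := by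
  rw [← incidence_mul, ← mul_incidence, h.source]

lemma AutRelations.range_apply (h : AutRelations Γ uV uE) (v : V) (f : E) :
    ∑ e ∈ Finset.univ.filter (fun e => v ∈ Γ.r e), uE e f = ∑ w ∈ Γ.r f, uV v w := by
  rw [← incidence_mul, ← mul_incidence, h.range]

end relations

section complete

variable {V : Type u} [Fintype V] [DecidableEq V] {A : Type u} [CStarAlgebra A]
  {uV : Matrix V V A} {uE : Matrix (Finset V × Finset V) (Finset V × Finset V) A}

/-- The key point: in the quantum automorphism group of the complete hypergraph, all entries of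
the fundamental representation commute. -/
theorem AutRelations.commute (h : AutRelations (complete V) uV uE) (v j w k : V) :
    Commute (uV v j) (uV w k) := by
  have h1 := h.source_apply v ({j}, {k})
  have h2 := h.range_apply w ({j}, {k})
  simp only [complete, Finset.sum_singleton] at h1 h2
  rw [← h1, ← h2]
  refine Commute.sum_left _ _ _ fun e _ => Commute.sum_right _ _ _ fun e' _ => ?_
  exact h.magicE.commute_col _ _ _

/-- The complete hypergraph has no multi-edges, so the edge matrix is determined. -/
theorem AutRelations.unique {uE' : Matrix (Finset V × Finset V) (Finset V × Finset V) A}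
    (h : AutRelations (complete V) uV uE) (h' : AutRelations (complete V) uV uE') :
    uE = uE' := by
  -- if a sum over a subset containing `e` and not `e'` agrees for both, the product vanishes
  have key : ∀ (f e e' : Finset V × Finset V) (S : Finset (Finset V × Finset V)),
      ∑ x ∈ S, uE x f = ∑ x ∈ S, uE' x f → e ∈ S → e' ∉ S → uE e f * uE' e' f = 0 := by
    intro f e e' S hS he he'
    have h1 : uE e f * ∑ x ∈ S, uE x f = uE e f := by
      rw [Finset.mul_sum, Finset.sum_eq_single e]
      · exact (h.magicE.proj e f).isIdempotentElem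
      · intro b _ hb
        exact h.magicE.orth_col f (Ne.symm hb)
      · intro hne; exact absurd he hne
    have h2 : (∑ x ∈ S, uE' x f) * uE' e' f = 0 := by
      rw [Finset.sum_mul]
      refine Finset.sum_eq_zero fun b hb => ?_
      exact h'.magicE.orth_col f (fun hbe => he' (hbe ▸ hb))
    rw [← h1, mul_assoc, hS, h2, mul_zero]
  have key2 : ∀ (f e e' : Finset V × Finset V) (S : Finset (Finset V × Finset V)),
      ∑ x ∈ S, uE x f = ∑ x ∈ S, uE' x f → e ∉ S → e' ∈ S → uE e f * uE' e' f = 0 := by
    intro f e e' S hS he he'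
    have h1 : uE e f * ∑ x ∈ S, uE x f = 0 := by
      rw [Finset.mul_sum]
      refine Finset.sum_eq_zero fun b hb => ?_
      exact h.magicE.orth_col f (fun hbe => he (hbe ▸ hb))
    have h2 : (∑ x ∈ S, uE' x f) * uE' e' f = uE' e' f := by
      rw [Finset.sum_mul, Finset.sum_eq_single e']
      · exact (h'.magicE.proj e' f).isIdempotentElem
      · intro b _ hb
        exact h'.magicE.orth_col f hb
      · intro hne; exact absurd he' hne
    rw [← h2, ← mul_assoc, ← hS, h1, zero_mul]
  have hs : ∀ (f : Finset V × Finset V) (v : V),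
      ∑ x ∈ Finset.univ.filter (fun x : Finset V × Finset V => v ∈ x.1), uE x f =
      ∑ x ∈ Finset.univ.filter (fun x : Finset V × Finset V => v ∈ x.1), uE' x f := by
    intro f v
    exact (h.source_apply v f).trans (h'.source_apply v f).symm
  have hr : ∀ (f : Finset V × Finset V) (v : V),
      ∑ x ∈ Finset.univ.filter (fun x : Finset V × Finset V => v ∈ x.2), uE x f =
      ∑ x ∈ Finset.univ.filter (fun x : Finset V × Finset V => v ∈ x.2), uE' x f := by
    intro f v
    exact (h.range_apply v f).trans (h'.range_apply v f).symm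
  have orth : ∀ f e e' : Finset V × Finset V, e ≠ e' → uE e f * uE' e' f = 0 := by
    intro f e e' hee
    by_cases h1 : e.1 = e'.1
    · have h2 : e.2 ≠ e'.2 := fun h2 => hee (Prod.ext h1 h2)
      obtain ⟨v, hv⟩ : ∃ v, ¬ (v ∈ e.2 ↔ v ∈ e'.2) := by
        by_contra hcon
        push Not at hcon
        exact h2 (Finset.ext hcon)
      by_cases hv1 : v ∈ e.2
      · exact key f e e' _ (hr f v) (by simpa using hv1) (by simpa using fun hv2 => hv ⟨fun _ => hv2, fun _ => hv1⟩)
      · exact key2 f e e' _ (hr f v) (by simpa using hv1) (by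
          simp only [Finset.mem_filter, Finset.mem_univ, true_and]
          by_contra hv2
          exact hv ⟨fun h => absurd h hv1, fun h => absurd h hv2⟩)
    · obtain ⟨v, hv⟩ : ∃ v, ¬ (v ∈ e.1 ↔ v ∈ e'.1) := by
        by_contra hcon
        push Not at hcon
        exact h1 (Finset.ext hcon)
      by_cases hv1 : v ∈ e.1
      · exact key f e e' _ (hs f v) (by simpa using hv1) (by simpa using fun hv2 => hv ⟨fun _ => hv2, fun _ => hv1⟩)
      · exact key2 f e e' _ (hs f v) (by simpa using hv1) (by
          simp only [Finset.mem_filter, Finset.mem_univ, true_and]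
          by_contra hv2
          exact hv ⟨fun h => absurd h hv1, fun h => absurd h hv2⟩)
  ext e f
  have h1 : uE e f * ∑ e', uE' e' f = uE e f * uE' e f := by
    rw [Finset.mul_sum, Finset.sum_eq_single e]
    · intro b _ hb
      exact orth f e b (Ne.symm hb)
    · intro hne; exact absurd (Finset.mem_univ _) hne
  have h2 : (∑ e', uE e' f) * uE' e f = uE e f * uE' e f := by
    rw [Finset.sum_mul, Finset.sum_eq_single e]
    · intro b _ hb
      exact orth f b e hb
    · intro hne; exact absurd (Finset.mem_univ _) hne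
  rw [h'.magicE.col_sum, mul_one] at h1
  rw [h.magicE.col_sum, one_mul] at h2
  exact h1.trans h2.symm

end complete

section map

variable {V E : Type u} [Fintype V] [DecidableEq V] [Fintype E] {Γ : Hypergraph V E}
  {A B : Type u} [CStarAlgebra A] [CStarAlgebra B] {uV : Matrix V V A} {uE : Matrix E E A}

lemma isStarProjection_map (φ : A →⋆ₐ[ℂ] B) {p : A} (hp : IsStarProjection p) :
    IsStarProjection (φ p) where
  isIdempotentElem := by
    rw [IsIdempotentElem, ← map_mul, hp.isIdempotentElem]
  isSelfAdjoint := by
    rw [IsSelfAdjoint, ← map_star, hp.isSelfAdjoint]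

omit [DecidableEq V] in
lemma IsMagicUnitary.map (φ : A →⋆ₐ[ℂ] B) {m : Matrix V V A} (hm : IsMagicUnitary m) :
    IsMagicUnitary (m.map φ) where
  proj i j := isStarProjection_map φ (hm.proj i j)
  row_sum i := by
    simp only [Matrix.map_apply]
    rw [← map_sum, hm.row_sum, map_one]
  col_sum i := by
    simp only [Matrix.map_apply]
    rw [← map_sum, hm.col_sum, map_one]

omit [Fintype V] [Fintype E] in
lemma incidence_map (φ : A →⋆ₐ[ℂ] B) (t : E → Finset V) :
    (incidence A t).map φ = incidence B t := by
  ext v e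
  simp only [Matrix.map_apply, incidence]
  split_ifs <;> simp

lemma AutRelations.map (φ : A →⋆ₐ[ℂ] B) (h : AutRelations Γ uV uE) :
    AutRelations Γ (uV.map φ) (uE.map φ) where
  magicV := h.magicV.map φ
  magicE := h.magicE.map φ
  source := by
    have := congrArg (fun M => M.map φ) h.source
    simpa only [Matrix.map_mul, incidence_map] using this
  range := by
    have := congrArg (fun M => M.map φ) h.range
    simpa only [Matrix.map_mul, incidence_map] using this

end map

section classical

variable (V : Type u) [Fintype V] [DecidableEq V]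

lemma isStarProjection_indicator {ι : Type u} [Fintype ι] (P : ι → Prop) [DecidablePred P] :
    IsStarProjection (fun i => if P i then (1 : ℂ) else 0) where
  isIdempotentElem := by
    ext i
    simp only [Pi.mul_apply]
    split_ifs <;> simp
  isSelfAdjoint := by
    ext i
    simp only [Pi.star_apply]
    split_ifs <;> simp

lemma magic_permV : IsMagicUnitary (permV V) where
  proj v w := isStarProjection_indicator (fun σ : Equiv.Perm V => σ w = v)
  row_sum v := by
    ext σ
    simp only [permV, Finset.sum_apply, Pi.one_apply]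
    rw [Finset.sum_eq_single (σ.symm v)]
    · simp
    · intro b _ hb
      rw [if_neg]
      intro h
      exact hb (by rw [← h]; simp)
    · intro h; exact absurd (Finset.mem_univ _) h
  col_sum w := by
    ext σ
    simp only [permV, Finset.sum_apply, Pi.one_apply]
    simp

omit [Fintype V] [DecidableEq V] in
lemma map_symm_map (σ : Equiv.Perm V) (X : Finset V) :
    (X.map σ.symm.toEmbedding).map σ.toEmbedding = X := by
  ext v; simp

lemma magic_permE : IsMagicUnitary (permE V) where
  proj e f := isStarProjection_indicator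
    (fun σ : Equiv.Perm V => f.1.map σ.toEmbedding = e.1 ∧ f.2.map σ.toEmbedding = e.2)
  row_sum e := by
    ext σ
    simp only [permE, Finset.sum_apply, Pi.one_apply]
    rw [Finset.sum_eq_single (e.1.map σ.symm.toEmbedding, e.2.map σ.symm.toEmbedding)]
    · simp [map_symm_map]
    · intro b _ hb
      rw [if_neg]
      rintro ⟨h1, h2⟩
      refine hb (Prod.ext ?_ ?_)
      · rw [← h1]; ext v; simp
      · rw [← h2]; ext v; simp
    · intro h; exact absurd (Finset.mem_univ _) h
  col_sum f := by
    ext σ
    simp only [permE, Finset.sum_apply, Pi.one_apply]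
    rw [Finset.sum_eq_single (f.1.map σ.toEmbedding, f.2.map σ.toEmbedding)]
    · simp
    · intro b _ hb
      rw [if_neg]
      rintro ⟨h1, h2⟩
      exact hb (Prod.ext h1.symm h2.symm)
    · intro h; exact absurd (Finset.mem_univ _) h

lemma perm_sum_filter (P : Finset V × Finset V → Prop) [DecidablePred P]
    (f : Finset V × Finset V) (σ : Equiv.Perm V) :
    ∑ e ∈ Finset.univ.filter P,
      (if f.1.map σ.toEmbedding = e.1 ∧ f.2.map σ.toEmbedding = e.2 then (1 : ℂ) else 0) =
      if P (f.1.map σ.toEmbedding, f.2.map σ.toEmbedding) then 1 else 0 := by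
  rw [Finset.sum_filter]
  rw [Finset.sum_eq_single (f.1.map σ.toEmbedding, f.2.map σ.toEmbedding)]
  · simp
  · intro b _ hb
    split_ifs with h1 h2
    · exact absurd (Prod.ext h2.1.symm h2.2.symm) hb
    · rfl
    · rfl
  · intro h; exact absurd (Finset.mem_univ _) h

omit [Fintype V] in
lemma perm_sum_mem (X : Finset V) (v : V) (σ : Equiv.Perm V) :
    ∑ w ∈ X, (if σ w = v then (1 : ℂ) else 0) =
      if v ∈ X.map σ.toEmbedding then 1 else 0 := by
  have h : ∀ w, (σ w = v) = (w = σ.symm v) := by
    intro w
    rw [Equiv.eq_symm_apply]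
  simp only [h]
  rw [Finset.sum_ite_eq']
  simp

lemma rel_perm : AutRelations (complete V) (permV V) (permE V) where
  magicV := magic_permV V
  magicE := magic_permE V
  source := by
    ext v f σ
    rw [incidence_mul, mul_incidence, Finset.sum_apply, Finset.sum_apply]
    refine (perm_sum_filter V (fun e => v ∈ e.1) f σ).trans ?_
    exact (perm_sum_mem V f.1 v σ).symm
  range := by
    ext v f σ
    rw [incidence_mul, mul_incidence, Finset.sum_apply, Finset.sum_apply]
    refine (perm_sum_filter V (fun e => v ∈ e.2) f σ).trans ?_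
    exact (perm_sum_mem V f.2 v σ).symm

/-- Two unital *-homomorphisms on `C(S_V)` that agree on the generators are equal. -/
lemma perm_hom_ext {A : Type u} [CStarAlgebra A] {φ ψ : (Equiv.Perm V → ℂ) →⋆ₐ[ℂ] A}
    (h : ∀ v w, φ (permV V v w) = ψ (permV V v w)) : φ = ψ := by
  let S := AlgHom.equalizer φ.toAlgHom ψ.toAlgHom
  have hgen : ∀ v w, permV V v w ∈ S := fun v w => h v w
  have hdelta : ∀ σ : Equiv.Perm V, (Pi.single σ 1 : Equiv.Perm V → ℂ) ∈ S := by
    intro σ
    have : (Pi.single σ 1 : Equiv.Perm V → ℂ) = ∏ v, permV V (σ v) v := by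
      ext τ
      rw [Finset.prod_apply]
      simp only [permV]
      by_cases hτ : τ = σ
      · subst hτ
        simp
      · rw [Pi.single_eq_of_ne hτ]
        obtain ⟨v, hv⟩ : ∃ v, τ v ≠ σ v := by
          by_contra hcon
          push Not at hcon
          exact hτ (Equiv.ext hcon)
        rw [Finset.prod_eq_zero (Finset.mem_univ v)]
        simp [hv]
    rw [this]
    exact Subalgebra.prod_mem _ fun v _ => hgen _ _
  have hall : ∀ f : Equiv.Perm V → ℂ, f ∈ S := by
    intro f
    have : f = ∑ σ, f σ • (Pi.single σ 1 : Equiv.Perm V → ℂ) := by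
      ext τ
      simp [Finset.sum_apply, Pi.single_apply]
    rw [this]
    exact Subalgebra.sum_mem _ fun σ _ => Subalgebra.smul_mem _ (hdelta σ) _
  exact StarAlgHom.ext fun f => hall f

end classical

section diag

variable {ι A : Type u} [Fintype ι] [DecidableEq ι] [CStarAlgebra A]

/-- The *-homomorphism `ℂ^ι → A` given by a partition of unity into orthogonal projections. -/
noncomputable def diagHom (a : ι → A) (ha : ∀ i, IsStarProjection (a i))
    (ho : ∀ i j, i ≠ j → a i * a j = 0) (hs : ∑ i, a i = 1) : (ι → ℂ) →⋆ₐ[ℂ] A where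
  toFun f := ∑ i, f i • a i
  map_one' := by simp [hs]
  map_mul' f g := by
    rw [Finset.sum_mul]
    refine Finset.sum_congr rfl fun i _ => ?_
    rw [Finset.mul_sum, Finset.sum_eq_single i]
    · rw [smul_mul_smul_comm, (ha i).isIdempotentElem]
      rfl
    · intro j _ hj
      rw [smul_mul_smul_comm, ho i j (Ne.symm hj), smul_zero]
    · intro h; exact absurd (Finset.mem_univ _) h
  map_zero' := by simp
  map_add' f g := by
    simp [add_smul, Finset.sum_add_distrib]
  commutes' c := by
    simp only [Pi.algebraMap_apply, Algebra.algebraMap_self, RingHom.id_apply]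
    rw [← Finset.smul_sum, hs, Algebra.algebraMap_eq_smul_one]
  map_star' f := by
    rw [star_sum]
    refine Finset.sum_congr rfl fun i _ => ?_
    rw [star_smul, (ha i).isSelfAdjoint.star_eq]
    rfl

omit [DecidableEq ι] in
lemma diagHom_apply (a : ι → A) (ha : ∀ i, IsStarProjection (a i))
    (ho : ∀ i j, i ≠ j → a i * a j = 0) (hs : ∑ i, a i = 1) (f : ι → ℂ) :
    diagHom a ha ho hs f = ∑ i, f i • a i := rfl

end diag

section comm

/-- The commutative combinatorics: a magic matrix of idempotents in a commutative ring. -/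
lemma comm_sum {V R : Type u} [Fintype V] [DecidableEq V] [CommRing R] (m : V → V → R)
    (horow : ∀ i j k, j ≠ k → m i j * m i k = 0) (hcol : ∀ j, ∑ i, m i j = 1) :
    ∑ σ : Equiv.Perm V, ∏ v, m (σ v) v = 1 := by
  have h1 : ∏ v, ∑ w, m w v = 1 := by simp [hcol]
  rw [Finset.prod_univ_sum] at h1
  rw [← h1]
  symm
  have h2 : ∀ g ∈ Fintype.piFinset (fun _ : V => (Finset.univ : Finset V)),
      g ∉ Finset.univ.image (fun σ : Equiv.Perm V => (σ : V → V)) → ∏ v, m (g v) v = 0 := by
    intro g _ hg
    have hinj : ¬ Function.Injective g := by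
      intro hinj
      refine hg ?_
      rw [Finset.mem_image]
      exact ⟨Equiv.ofBijective g (Finite.injective_iff_bijective.1 hinj), Finset.mem_univ _, rfl⟩
    rw [Function.Injective] at hinj
    push Not at hinj
    obtain ⟨a, b, hab, hne⟩ := hinj
    rw [← Finset.mul_prod_erase _ _ (Finset.mem_univ a),
      ← Finset.mul_prod_erase _ _ (Finset.mem_erase.2 ⟨hne.symm, Finset.mem_univ b⟩), ← mul_assoc,
      hab, horow _ _ _ hne, zero_mul]
  rw [← Finset.sum_subset (Finset.subset_univ _ |>.trans (by simp)) h2]
  rw [Finset.sum_image]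
  intro σ _ τ _ h
  exact Equiv.ext (congrFun h)

end comm

section commuting

variable {V : Type u} [Fintype V] [DecidableEq V] {A : Type u} [CStarAlgebra A]

/-- A magic unitary with commuting entries comes from `C(S_V)`. -/
theorem exists_hom_of_commute {m : Matrix V V A} (hm : IsMagicUnitary m)
    (hc : ∀ v w v' w', Commute (m v w) (m v' w')) :
    ∃ ψ : (Equiv.Perm V → ℂ) →⋆ₐ[ℂ] A, ∀ v w, ψ (permV V v w) = m v w := by
  let gens : Set A := Set.range fun p : V × V => m p.1 p.2
  let S := StarAlgebra.adjoin ℂ gens
  have hc1 : ∀ a ∈ gens, ∀ b ∈ gens, a * b = b * a := by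
    rintro _ ⟨p, rfl⟩ _ ⟨q, rfl⟩
    exact hc _ _ _ _
  have hc2 : ∀ a ∈ gens, ∀ b ∈ gens, a * star b = star b * a := by
    rintro _ ⟨p, rfl⟩ _ ⟨q, rfl⟩
    rw [(hm.proj _ _).isSelfAdjoint.star_eq]
    exact hc _ _ _ _
  have hcm : IsMulCommutative S := StarAlgebra.isMulCommutative_adjoin ℂ hc1 hc2
  let _ : CommRing S := { (inferInstance : Ring S) with mul_comm := fun a b => hcm.is_comm.comm a b }
  let n : V → V → S := fun v w => ⟨m v w, StarAlgebra.subset_adjoin ℂ gens ⟨(v, w), rfl⟩⟩
  have hnrow : ∀ i j k, j ≠ k → n i j * n i k = 0 := fun i j k h =>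
    Subtype.ext (hm.orth_row i h)
  have hncol : ∀ i i' j, i ≠ i' → n i j * n i' j = 0 := fun i i' j h =>
    Subtype.ext (hm.orth_col j h)
  have hidem : ∀ i j, n i j * n i j = n i j := fun i j =>
    Subtype.ext (hm.proj i j).isIdempotentElem
  have hcs : ∀ j, ∑ i, n i j = 1 := fun j => by
    apply Subtype.ext
    push_cast
    exact hm.col_sum j
  let a : Equiv.Perm V → S := fun σ => ∏ v, n (σ v) v
  have hasum : ∑ σ, a σ = 1 := comm_sum n hnrow hcs
  have hmul : ∀ v w σ, n v w * a σ = if σ w = v then a σ else 0 := by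
    intro v w σ
    split_ifs with h
    · subst h
      simp only [a]
      rw [← Finset.mul_prod_erase _ _ (Finset.mem_univ w), ← mul_assoc, hidem]
    · simp only [a]
      rw [← Finset.mul_prod_erase _ _ (Finset.mem_univ w), ← mul_assoc,
        hncol v (σ w) w (Ne.symm h), zero_mul]
  have horth : ∀ σ τ, σ ≠ τ → a σ * a τ = 0 := by
    intro σ τ h
    obtain ⟨v, hv⟩ : ∃ v, τ v ≠ σ v := by
      by_contra hcon
      push Not at hcon
      exact h (Equiv.ext hcon).symm
    simp only [a]
    rw [← Finset.mul_prod_erase _ _ (Finset.mem_univ v), mul_comm (n (σ v) v), mul_assoc]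
    have := hmul (σ v) v τ
    rw [if_neg hv] at this
    rw [this, mul_zero]
  have hidema : ∀ σ, a σ * a σ = a σ := by
    intro σ
    simp only [a]
    rw [← Finset.prod_mul_distrib]
    exact Finset.prod_congr rfl fun v _ => hidem _ _
  have hself : ∀ σ, star (a σ) = a σ := by
    intro σ
    simp only [a]
    rw [star_prod]
    refine Finset.prod_congr rfl fun v _ => ?_
    exact Subtype.ext (hm.proj _ _).isSelfAdjoint
  let b : Equiv.Perm V → A := fun σ => (a σ : A)
  have hbp : ∀ σ, IsStarProjection (b σ) := fun σ =>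
    ⟨congrArg Subtype.val (hidema σ), congrArg Subtype.val (hself σ)⟩
  have hbo : ∀ σ τ, σ ≠ τ → b σ * b τ = 0 := fun σ τ h => congrArg Subtype.val (horth σ τ h)
  have hbs : ∑ σ, b σ = 1 := by
    have := congrArg Subtype.val hasum
    push_cast at this
    exact this
  refine ⟨diagHom b hbp hbo hbs, fun v w => ?_⟩
  rw [diagHom_apply]
  have h1 : n v w = ∑ σ, if σ w = v then a σ else 0 := by
    calc n v w = n v w * ∑ σ, a σ := by rw [hasum, mul_one]
      _ = _ := by
        rw [Finset.mul_sum]
        exact Finset.sum_congr rfl fun σ _ => hmul v w σ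
  have h2 := congrArg Subtype.val h1
  push_cast at h2
  change ∑ σ, permV V v w σ • b σ = m v w
  refine Eq.trans ?_ h2.symm
  refine Finset.sum_congr rfl fun σ _ => ?_
  simp only [permV, b]
  split_ifs <;> simp

/-- `Aut⁺(Γ_V) = S_V`. -/
theorem quantumAut_complete : IsQuantumAut (complete V) (Equiv.Perm V → ℂ) (permV V) (permE V) where
  rel := rel_perm V
  universal B _ UV UE h := by
    obtain ⟨ψ, hψ⟩ := exists_hom_of_commute h.magicV (fun v w v' w' => h.commute v w v' w')
    have h1 : (permV V).map ψ = UV := by
      ext v w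
      exact hψ v w
    have h2 := (rel_perm V).map ψ
    rw [h1] at h2
    have h3 : (permE V).map ψ = UE := h2.unique h
    refine ⟨ψ, ⟨hψ, fun e f => congrFun (congrFun h3 e) f⟩, ?_⟩
    rintro φ ⟨hφ, _⟩
    exact perm_hom_ext V fun v w => by rw [hφ, hψ]

/-- Magic unitaries of size at most three have commuting entries. -/
theorem commute_of_card_le_three (hV : Fintype.card V ≤ 3) {m : Matrix V V A}
    (hm : IsMagicUnitary m) (i j k l : V) : Commute (m i j) (m k l) := by
  by_cases hik : i = k
  · subst hik
    by_cases hjl : j = l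
    · subst hjl; exact Commute.refl _
    · rw [Commute, SemiconjBy, hm.orth_row i hjl, hm.orth_row i (Ne.symm hjl)]
  by_cases hjl : j = l
  · subst hjl; exact hm.commute_col _ _ _
  have key : ∀ n, n ≠ j → m i j * m k l * m i n = 0 := by
    intro n hnj
    by_cases hnl : n = l
    · subst hnl
      rw [mul_assoc, hm.orth_col n (Ne.symm hik), mul_zero]
    · have hlrest : ∀ l', l' ≠ l → l' = j ∨ l' = n := by
        intro l' hl'
        by_contra hcon
        push Not at hcon
        have hcard : ({j, l, n, l'} : Finset V).card = 4 := by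
          rw [Finset.card_eq_succ]
          refine ⟨j, {l, n, l'}, ?_, rfl, ?_⟩
          · simp [hjl, Ne.symm hnj, Ne.symm hcon.1]
          · rw [Finset.card_eq_succ]
            refine ⟨l, {n, l'}, ?_, rfl, ?_⟩
            · simp [Ne.symm hnl, Ne.symm hl']
            · rw [Finset.card_pair (Ne.symm hcon.2)]
        have := Finset.card_le_univ ({j, l, n, l'} : Finset V)
        omega
      have h1 : m k l = 1 - ∑ l' ∈ Finset.univ.erase l, m k l' := by
        rw [eq_sub_iff_add_eq, Finset.add_sum_erase _ _ (Finset.mem_univ l), hm.row_sum]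
      have h2 : m i j * (∑ l' ∈ Finset.univ.erase l, m k l') * m i n = 0 := by
        rw [Finset.mul_sum, Finset.sum_mul]
        refine Finset.sum_eq_zero fun l' hl' => ?_
        rcases hlrest l' (Finset.ne_of_mem_erase hl') with h | h
        · subst h
          rw [hm.orth_col l' hik, zero_mul]
        · subst h
          rw [mul_assoc, hm.orth_col l' (Ne.symm hik), mul_zero]
      rw [h1, mul_sub, mul_one, sub_mul, h2, hm.orth_row i (Ne.symm hnj), sub_zero]
  have h1 : m i j * m k l = m i j * m k l * m i j := by
    calc m i j * m k l = m i j * m k l * ∑ n, m i n := by rw [hm.row_sum, mul_one]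
      _ = _ := by
        rw [Finset.mul_sum, Finset.sum_eq_single j]
        · intro n _ hn
          exact key n hn
        · intro h; exact absurd (Finset.mem_univ _) h
  have h2 := congrArg star h1
  simp only [star_mul, (hm.proj _ _).isSelfAdjoint.star_eq] at h2
  rw [Commute, SemiconjBy, h1, h2, mul_assoc]

end commuting

section example4

/-- The index type of 2 × 2 matrices, in an arbitrary universe. -/
abbrev Two : Type u := ULift.{u} (Fin 2)

/-- First projection. -/
noncomputable def projP : CStarMatrix Two.{u} Two.{u} ℂ :=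
  CStarMatrix.ofMatrix (Matrix.of fun i j => if i.down = 0 ∧ j.down = 0 then 1 else 0)

/-- Second projection. -/
noncomputable def projQ : CStarMatrix Two.{u} Two.{u} ℂ :=
  CStarMatrix.ofMatrix (Matrix.of fun _ _ => 1 / 2)

lemma sum_two (f : Two.{u} → ℂ) : ∑ i, f i = f ⟨0⟩ + f ⟨1⟩ := by
  rw [← Equiv.sum_comp Equiv.ulift.symm]
  simp [Fin.sum_univ_two]

lemma projP_isStarProjection : IsStarProjection projP.{u} where
  isIdempotentElem := by
    refine CStarMatrix.ext fun i j => ?_
    rw [CStarMatrix.mul_apply, sum_two]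
    simp only [projP, CStarMatrix.ofMatrix_apply, Matrix.of_apply]
    by_cases h1 : i.down = 0 <;> by_cases h2 : j.down = 0 <;> simp [h1, h2]
  isSelfAdjoint := by
    refine CStarMatrix.ext fun i j => ?_
    rw [CStarMatrix.star_apply]
    simp only [projP, CStarMatrix.ofMatrix_apply, Matrix.of_apply, and_comm]
    split_ifs <;> simp

lemma projQ_isStarProjection : IsStarProjection projQ.{u} where
  isIdempotentElem := by
    refine CStarMatrix.ext fun i j => ?_
    rw [CStarMatrix.mul_apply, sum_two]
    simp only [projQ, CStarMatrix.ofMatrix_apply, Matrix.of_apply]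
    norm_num
  isSelfAdjoint := by
    refine CStarMatrix.ext fun i j => ?_
    rw [CStarMatrix.star_apply]
    simp [projQ]

lemma projP_not_commute : ¬ Commute projP.{u} projQ.{u} := by
  intro h
  have := congrFun (congrFun h ⟨0⟩) ⟨1⟩
  rw [CStarMatrix.mul_apply, CStarMatrix.mul_apply, sum_two, sum_two] at this
  simp [projP, projQ] at this

variable {V : Type u} [Fintype V] [DecidableEq V] {A : Type u} [CStarAlgebra A]

/-- The block matrix with blocks `(p, 1-p; 1-p, p)` on `{a, b}`, `(q, 1-q; 1-q, q)` on `{c, d}` and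
the identity elsewhere. -/
def block (p q : A) (a b c d : V) : Matrix V V A := fun v w =>
  if w = a ∨ w = b then
    (if v = w then p else 0) + (if v = Equiv.swap a b w then 1 - p else 0)
  else
    (if v = w then q else 0) + (if v = Equiv.swap c d w then 1 - q else 0)

omit [Fintype V] in
lemma block_symm (p q : A) {a b c d : V}
    (hac : a ≠ c) (had : a ≠ d) (hbc : b ≠ c) (hbd : b ≠ d) (v w : V) :
    block p q a b c d v w = block p q a b c d w v := by
  have hsw : ∀ x y z t : V, (z = Equiv.swap x y t) ↔ (t = Equiv.swap x y z) := by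
    intro x y z t
    constructor <;> rintro rfl <;> simp
  have hfix : ∀ z, (z = a ∨ z = b) → Equiv.swap c d z = z := by
    intro z hz
    apply Equiv.swap_apply_of_ne_of_ne
    · rcases hz with rfl | rfl <;> assumption
    · rcases hz with rfl | rfl <;> assumption
  have hab : ∀ z, (z = a ∨ z = b) → (Equiv.swap a b z = a ∨ Equiv.swap a b z = b) := by
    intro z hz
    rcases hz with rfl | rfl
    · right; simp
    · left; simp
  unfold block
  by_cases hw : w = a ∨ w = b <;> by_cases hv : v = a ∨ v = b
  · rw [if_pos hw, if_pos hv]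
    simp only [eq_comm (a := v) (b := w), hsw a b v w]
  · rw [if_pos hw, if_neg hv]
    rw [if_neg (fun h : v = w => hv (h ▸ hw)), if_neg (c := v = Equiv.swap a b w)
      (fun h => hv (h ▸ hab w hw)), if_neg (fun h : w = v => hv (h ▸ hw)), if_neg]
    intro h
    rw [hsw, hfix w hw] at h
    exact hv (h ▸ hw)
  · rw [if_neg hw, if_pos hv]
    rw [if_neg (fun h : v = w => hw (h ▸ hv)), if_neg (c := w = Equiv.swap a b v)
      (fun h => hw (h ▸ hab v hv)), if_neg (fun h : w = v => hw (h ▸ hv)), if_neg]
    intro h
    rw [hsw, hfix v hv] at h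
    exact hw (h ▸ hv)
  · rw [if_neg hw, if_neg hv]
    simp only [eq_comm (a := v) (b := w), hsw c d v w]

lemma block_magic {p q : A} (hp : IsStarProjection p) (hq : IsStarProjection q) {a b c d : V}
    (hac : a ≠ c) (had : a ≠ d) (hbc : b ≠ c) (hbd : b ≠ d) :
    IsMagicUnitary (block p q a b c d) := by
  have hcol : ∀ w, ∑ v, block p q a b c d v w = 1 := by
    intro w
    unfold block
    by_cases h : w = a ∨ w = b
    · simp only [h, if_true, Finset.sum_add_distrib, Finset.sum_ite_eq', Finset.mem_univ]
      simp
    · simp only [h, if_false, Finset.sum_add_distrib, Finset.sum_ite_eq', Finset.mem_univ, if_true]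
      simp
  refine ⟨fun v w => ?_, fun v => ?_, hcol⟩
  · have key : ∀ (e : A) (he : IsStarProjection e) (P Q : Prop) [Decidable P] [Decidable Q],
        IsStarProjection ((if P then e else 0) + (if Q then 1 - e else 0)) := by
      intro e he P Q _ _
      split_ifs
      · simp [IsStarProjection.one]
      · simpa using he
      · simpa using he.one_sub
      · simp [IsStarProjection.zero]
    unfold block
    by_cases h : w = a ∨ w = b
    · rw [if_pos h]; exact key p hp _ _
    · rw [if_neg h]; exact key q hq _ _
  · rw [← hcol v]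
    exact Finset.sum_congr rfl fun w _ => block_symm p q hac had hbc hbd v w

open scoped ComplexOrder in
/-- If `|V| ≥ 4`, some magic unitary over `V` has two entries that do not commute. -/
theorem exists_noncommuting (hV : 4 ≤ Fintype.card V) :
    ∃ (B : Type u) (_ : CStarAlgebra B) (m : Matrix V V B), IsMagicUnitary m ∧
      ∃ v w v' w', ¬ Commute (m v w) (m v' w') := by
  obtain ⟨s, -, hs⟩ := Finset.exists_subset_card_eq (s := (Finset.univ : Finset V)) (n := 4)
    (by simpa using hV)
  rw [Finset.card_eq_succ] at hs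
  obtain ⟨a, t, hat, -, ht⟩ := hs
  rw [Finset.card_eq_three] at ht
  obtain ⟨b, c, d, hbc, hbd, hcd, rfl⟩ := ht
  simp only [Finset.mem_insert, Finset.mem_singleton, not_or] at hat
  refine ⟨CStarMatrix Two.{u} Two.{u} ℂ, inferInstance, block projP projQ a b c d,
    block_magic projP_isStarProjection projQ_isStarProjection hat.2.1 hat.2.2 hbc hbd,
    a, a, c, c, ?_⟩
  have h1 : block projP.{u} projQ.{u} a b c d a a = projP := by
    unfold block
    rw [if_pos (Or.inl rfl), if_pos rfl, if_neg, add_zero]
    rw [Equiv.swap_apply_left]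
    exact hat.1
  have h2 : block projP.{u} projQ.{u} a b c d c c = projQ := by
    unfold block
    rw [if_neg, if_pos rfl, if_neg, add_zero]
    · rw [Equiv.swap_apply_left]
      exact hcd
    · rintro (h | h)
      · exact hat.2.1 h.symm
      · exact hbc h.symm
  rw [h1, h2]
  exact projP_not_commute

end example4

section main

variable {V : Type u} [Fintype V] [DecidableEq V]

omit [DecidableEq V] in
/-- If the entries of the universal magic unitary commute then so do those of all others. -/
lemma commute_of_universal {A : Type u} [CStarAlgebra A] {m : Matrix V V A}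
    (hA : IsQuantumPerm V A m) (hc : ∀ v w v' w', Commute (m v w) (m v' w'))
    {B : Type u} [CStarAlgebra B] {U : Matrix V V B} (hU : IsMagicUnitary U) (v w v' w' : V) :
    Commute (U v w) (U v' w') := by
  obtain ⟨φ, hφ, -⟩ := hA.universal B U hU
  rw [← hφ, ← hφ]
  exact (hc v w v' w').map φ

/-- The canonical map `C(S_V⁺) → C(Aut⁺(Γ_V))` is bijective exactly if `|V| ≤ 3`. -/
theorem canonical_bijective_iff {A : Type u} [CStarAlgebra A] {m : Matrix V V A}
    (hA : IsQuantumPerm V A m) {B : Type u} [CStarAlgebra B] {uV : Matrix V V B}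
    {uE : Matrix (Finset V × Finset V) (Finset V × Finset V) B}
    (hB : IsQuantumAut (complete V) B uV uE) {π : A →⋆ₐ[ℂ] B}
    (hπ : ∀ v w, π (m v w) = uV v w) :
    (Function.Injective π → Fintype.card V ≤ 3) ∧
      (Fintype.card V ≤ 3 → Function.Bijective π) := by
  constructor
  · intro hinj
    by_contra hcard
    obtain ⟨C, _, U, hU, v, w, v', w', hnc⟩ := exists_noncommuting (V := V) (by omega)
    refine hnc (commute_of_universal hA (fun v w v' w' => ?_) hU v w v' w')
    apply hinj
    rw [map_mul, map_mul, hπ, hπ]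
    exact hB.rel.commute v w v' w'
  · intro hcard
    obtain ⟨ψ, hψ⟩ := exists_hom_of_commute hA.rel
      (fun i j k l => commute_of_card_le_three hcard hA.rel i j k l)
    have h1 : (permV V).map ψ = m := by
      ext v w
      exact hψ v w
    have h2 := (rel_perm V).map ψ
    rw [h1] at h2
    obtain ⟨ρ, ⟨hρV, hρE⟩, -⟩ := hB.universal A m ((permE V).map ψ) h2
    have h3 : ρ.comp π = StarAlgHom.id ℂ A := by
      refine (hA.universal A m hA.rel).unique ?_ ?_
      · intro v w
        rw [StarAlgHom.comp_apply, hπ, hρV]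
      · intro v w
        rfl
    have h4 : π.comp ρ = StarAlgHom.id ℂ B := by
      refine (hB.universal B uV uE hB.rel).unique ⟨?_, ?_⟩ ⟨?_, ?_⟩
      · intro v w
        rw [StarAlgHom.comp_apply, hρV, hπ]
      · intro e f
        have h5 := h2.map π
        have h6 : m.map π = uV := by
          ext v w
          exact hπ v w
        rw [h6] at h5
        have h7 := h5.unique hB.rel
        rw [StarAlgHom.comp_apply, hρE]
        exact congrFun (congrFun h7 e) f
      · intro v w
        rfl
      · intro e f
        rfl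
    refine ⟨fun x y hxy => ?_, fun y => ⟨ρ y, ?_⟩⟩
    · have hx := DFunLike.congr_fun h3 x
      have hy := DFunLike.congr_fun h3 y
      rw [StarAlgHom.comp_apply] at hx hy
      rw [hxy] at hx
      exact hx.symm.trans hy
    · exact DFunLike.congr_fun h4 y

end main

section existence

variable (V : Type u) [Fintype V]

open scoped ENNReal

/-- A nontrivial C*-algebra with a magic unitary. -/
structure Rep where
  B : Type u
  inst : CStarAlgebra B
  nt : Nontrivial B
  U : Matrix V V B
  magic : IsMagicUnitary U

attribute [instance] Rep.inst Rep.nt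

variable {V}

/-- evaluation of noncommutative polynomials in the entries of a matrix -/
noncomputable def ev {B : Type u} [CStarAlgebra B] (U : Matrix V V B) :
    FreeAlgebra ℂ (V × V) →ₐ[ℂ] B :=
  FreeAlgebra.lift ℂ (fun p => U p.1 p.2)

omit [Fintype V] in
lemma ev_gen {B : Type u} [CStarAlgebra B] (U : Matrix V V B) (v w : V) :
    ev U (FreeAlgebra.ι ℂ (v, w)) = U v w := by
  simp [ev]

omit [Fintype V] in
lemma map_ev {B C : Type u} [CStarAlgebra B] [CStarAlgebra C] (U : Matrix V V B)
    (φ : B →⋆ₐ[ℂ] C) (x : FreeAlgebra ℂ (V × V)) : φ (ev U x) = ev (U.map φ) x := by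
  have : (φ.toAlgHom).comp (ev U) = ev (U.map φ) := by
    refine FreeAlgebra.hom_ext ?_
    ext p
    simp [ev]
  exact DFunLike.congr_fun this x

variable (V) in
/-- the set of norm functions on noncommutative polynomials coming from representations -/
def Idx : Type u :=
  Set.range fun (r : Rep V) (x : FreeAlgebra ℂ (V × V)) => ‖ev r.U x‖

/-- a chosen representation -/
noncomputable def sec (i : Idx V) : Rep V := i.2.choose

lemma sec_norm (r : Rep V) (x : FreeAlgebra ℂ (V × V)) :
    ‖ev (sec (⟨_, r, rfl⟩ : Idx V)).U x‖ = ‖ev r.U x‖ := by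
  have := (⟨_, r, rfl⟩ : Idx V).2.choose_spec
  exact congrFun this x

variable (V) in
/-- the product of all representations -/
abbrev Big : Type u := lp (fun i : Idx V => (sec i).B) ∞

noncomputable instance : CStarAlgebra (Big V) where

/-- the coordinate maps of the product -/
noncomputable def evalAt (i : Idx V) : Big V →⋆ₐ[ℂ] (sec i).B where
  toFun f := f i
  map_one' := rfl
  map_mul' _ _ := rfl
  map_zero' := rfl
  map_add' _ _ := rfl
  commutes' _ := rfl
  map_star' _ := rfl

lemma evalAt_norm_le (i : Idx V) (f : Big V) : ‖evalAt i f‖ ≤ ‖f‖ :=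
  lp.norm_apply_le_norm (by simp) f i

variable (V) in
/-- the universal magic unitary inside the product -/
noncomputable def bigU : Matrix V V (Big V) := fun v w =>
  ⟨fun i => (sec i).U v w, memℓp_infty ⟨1, by
    rintro _ ⟨i, rfl⟩
    exact ((sec i).magic.proj v w).norm_le⟩⟩

lemma evalAt_bigU (i : Idx V) (v w : V) : evalAt i (bigU V v w) = (sec i).U v w := rfl

lemma big_ext {f g : Big V} (h : ∀ i, evalAt i f = evalAt i g) : f = g := by
  apply lp.ext
  ext i
  exact h i

lemma bigU_magic : IsMagicUnitary (bigU V) where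
  proj v w := by
    refine ⟨?_, ?_⟩
    · refine big_ext fun i => ?_
      rw [map_mul, evalAt_bigU, ((sec i).magic.proj v w).isIdempotentElem]
    · refine big_ext fun i => ?_
      rw [map_star, evalAt_bigU, ((sec i).magic.proj v w).isSelfAdjoint.star_eq]
  row_sum v := by
    refine big_ext fun i => ?_
    rw [map_sum, map_one]
    exact (sec i).magic.row_sum v
  col_sum v := by
    refine big_ext fun i => ?_
    rw [map_sum, map_one]
    exact (sec i).magic.col_sum v

/-- norms of polynomials in the universal magic unitary dominate -/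
lemma norm_ev_le (r : Rep V) (x : FreeAlgebra ℂ (V × V)) : ‖ev r.U x‖ ≤ ‖ev (bigU V) x‖ := by
  have h1 := evalAt_norm_le (⟨_, r, rfl⟩ : Idx V) (ev (bigU V) x)
  rw [map_ev] at h1
  have h2 : (bigU V).map (evalAt (⟨_, r, rfl⟩ : Idx V)) = (sec (⟨_, r, rfl⟩ : Idx V)).U := rfl
  rw [h2, sec_norm r x] at h1
  exact h1

omit [Fintype V] in
lemma ev_star {B : Type u} [CStarAlgebra B] (U : Matrix V V B)
    (hU : ∀ v w, star (U v w) = U v w) (x : FreeAlgebra ℂ (V × V)) :
    ∃ y, star (ev U x) = ev U y := by
  induction x using FreeAlgebra.induction with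
  | grade0 r =>
    refine ⟨algebraMap _ _ (star r), ?_⟩
    rw [AlgHom.commutes, AlgHom.commutes, ← algebraMap_star_comm]
  | grade1 p =>
    refine ⟨FreeAlgebra.ι ℂ p, ?_⟩
    obtain ⟨v, w⟩ := p
    rw [ev_gen, hU]
  | mul a b ha hb =>
    obtain ⟨c, hc⟩ := ha
    obtain ⟨d, hd⟩ := hb
    exact ⟨d * c, by rw [map_mul, map_mul, star_mul, hc, hd]⟩
  | add a b ha hb =>
    obtain ⟨c, hc⟩ := ha
    obtain ⟨d, hd⟩ := hb
    exact ⟨c + d, by rw [map_add, map_add, star_add, hc, hd]⟩

omit [Fintype V] in
lemma mem_adjoin_iff_ev {B : Type u} [CStarAlgebra B] (U : Matrix V V B)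
    (hU : ∀ v w, star (U v w) = U v w) {z : B}
    (hz : z ∈ StarAlgebra.adjoin ℂ (Set.range fun p : V × V => U p.1 p.2)) :
    ∃ x, z = ev U x := by
  induction hz using StarAlgebra.adjoin_induction with
  | mem x h =>
    obtain ⟨p, rfl⟩ := h
    exact ⟨FreeAlgebra.ι ℂ p, (ev_gen U p.1 p.2).symm⟩
  | algebraMap r => exact ⟨algebraMap _ _ r, by rw [AlgHom.commutes]⟩
  | add x y _ _ hx hy =>
    obtain ⟨a, rfl⟩ := hx
    obtain ⟨b, rfl⟩ := hy
    exact ⟨a + b, by rw [map_add]⟩
  | mul x y _ _ hx hy =>
    obtain ⟨a, rfl⟩ := hx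
    obtain ⟨b, rfl⟩ := hy
    exact ⟨a * b, by rw [map_mul]⟩
  | star x _ hx =>
    obtain ⟨a, rfl⟩ := hx
    exact ev_star U hU a

variable (V) in
/-- The universal C*-algebra generated by the entries of a magic unitary. -/
noncomputable abbrev univAlg : StarSubalgebra ℂ (Big V) :=
  (StarAlgebra.adjoin ℂ (Set.range fun p : V × V => bigU V p.1 p.2)).topologicalClosure

instance : IsClosed (univAlg V : Set (Big V)) :=
  StarSubalgebra.isClosed_topologicalClosure _

variable (V) in
/-- its magic unitary -/
noncomputable def univU : Matrix V V (univAlg V) := fun v w =>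
  ⟨bigU V v w, StarSubalgebra.le_topologicalClosure _
    (StarAlgebra.subset_adjoin ℂ _ ⟨(v, w), rfl⟩)⟩

lemma univU_magic : IsMagicUnitary (univU V) where
  proj v w := by
    refine ⟨?_, ?_⟩
    · exact Subtype.ext (bigU_magic.proj v w).isIdempotentElem
    · exact Subtype.ext (bigU_magic.proj v w).isSelfAdjoint
  row_sum v := by
    apply Subtype.ext
    push_cast
    exact bigU_magic.row_sum v
  col_sum v := by
    apply Subtype.ext
    push_cast
    exact bigU_magic.col_sum v

lemma exists_hom_of_rep (r : Rep V) :
    ∃ φ : univAlg V →⋆ₐ[ℂ] r.B, ∀ v w, φ (univU V v w) = r.U v w := by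
  let P := Big V × r.B
  let X : Matrix V V P := fun v w => (bigU V v w, r.U v w)
  have hX : ∀ v w, star (X v w) = X v w := by
    intro v w
    exact Prod.ext (bigU_magic.proj v w).isSelfAdjoint (r.magic.proj v w).isSelfAdjoint
  let S : StarSubalgebra ℂ P :=
    (StarAlgebra.adjoin ℂ (Set.range fun p : V × V => X p.1 p.2)).topologicalClosure
  have hS : IsClosed (S : Set P) := StarSubalgebra.isClosed_topologicalClosure _
  let _ : CStarAlgebra S := StarSubalgebra.cstarAlgebra S
  let f : S →⋆ₐ[ℂ] Big V := (StarAlgHom.fst ℂ (Big V) r.B).comp S.subtype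
  have hle : ∀ z ∈ S, ‖z.2‖ ≤ ‖z.1‖ := by
    intro z hz
    have hcl : IsClosed {z : P | ‖z.2‖ ≤ ‖z.1‖} :=
      isClosed_le (continuous_norm.comp continuous_snd) (continuous_norm.comp continuous_fst)
    refine closure_minimal ?_ hcl hz
    intro z hz
    obtain ⟨x, rfl⟩ := mem_adjoin_iff_ev X hX hz
    have h1 : (ev X x).1 = ev (bigU V) x := map_ev X (StarAlgHom.fst ℂ (Big V) r.B) x
    have h2 : (ev X x).2 = ev r.U x := map_ev X (StarAlgHom.snd ℂ (Big V) r.B) x
    change ‖(ev X x).2‖ ≤ ‖(ev X x).1‖
    rw [h1, h2]
    exact norm_ev_le r x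
  have hf : Function.Injective f := by
    rw [injective_iff_map_eq_zero]
    rintro ⟨z, hz⟩ h0
    have h1 : z.1 = 0 := h0
    have h2 := hle z hz
    rw [h1, norm_zero] at h2
    have h3 : z.2 = 0 := norm_le_zero_iff.1 h2
    exact Subtype.ext (Prod.ext h1 h3)
  have hiso : Isometry f := NonUnitalStarAlgHom.isometry f hf
  have hrange : IsClosed (f.range : Set (Big V)) := by
    have h := hiso.isClosedEmbedding.isClosed_range
    have h2 : (f.range : Set (Big V)) = Set.range f := rfl
    rw [h2]
    exact h
  have hsub : univAlg V ≤ f.range := by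
    refine StarSubalgebra.topologicalClosure_minimal ?_ hrange
    rw [StarAlgebra.adjoin_le_iff]
    rintro _ ⟨p, rfl⟩
    exact ⟨⟨X p.1 p.2, StarSubalgebra.le_topologicalClosure _
      (StarAlgebra.subset_adjoin ℂ _ ⟨p, rfl⟩)⟩, rfl⟩
  let e := StarAlgEquiv.ofInjective f hf
  let φ : univAlg V →⋆ₐ[ℂ] r.B :=
    (StarAlgHom.snd ℂ (Big V) r.B).comp
      (S.subtype.comp ((e.symm : f.range →⋆ₐ[ℂ] S).comp (StarSubalgebra.inclusion hsub)))
  refine ⟨φ, fun v w => ?_⟩
  have h1 : e.symm (StarSubalgebra.inclusion hsub (univU V v w)) =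
      ⟨X v w, StarSubalgebra.le_topologicalClosure _
        (StarAlgebra.subset_adjoin ℂ _ ⟨(v, w), rfl⟩)⟩ := by
    rw [StarAlgEquiv.symm_apply_eq]
    rfl
  change (e.symm (StarSubalgebra.inclusion hsub (univU V v w))).1.2 = _
  rw [h1]

/-- Existence of the quantum permutation group. -/
theorem exists_quantumPerm : ∃ (A : Type u) (_ : CStarAlgebra A) (m : Matrix V V A),
    IsQuantumPerm V A m := by
  refine ⟨univAlg V, inferInstance, univU V, univU_magic, fun B _ U hU => ?_⟩
  have huniq : ∀ φ ψ : univAlg V →⋆ₐ[ℂ] B, (∀ v w, φ (univU V v w) = U v w) →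
      (∀ v w, ψ (univU V v w) = U v w) → φ = ψ := by
    intro φ ψ hφ hψ
    have hcφ : Continuous φ := AddMonoidHomClass.continuous_of_bound φ 1
      (fun x => by simpa only [one_mul] using NonUnitalStarAlgHom.norm_apply_le φ x)
    have hcψ : Continuous ψ := AddMonoidHomClass.continuous_of_bound ψ 1
      (fun x => by simpa only [one_mul] using NonUnitalStarAlgHom.norm_apply_le ψ x)
    refine StarAlgHom.ext_topologicalClosure hcφ hcψ ?_
    refine StarAlgHom.ext_adjoin ?_
    rintro ⟨x, hx⟩ ⟨p, rfl⟩
    exact (hφ p.1 p.2).trans (hψ p.1 p.2).symm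
  rcases subsingleton_or_nontrivial B with hB | hB
  · let φ : univAlg V →⋆ₐ[ℂ] B :=
      { toFun := fun _ => 0
        map_one' := Subsingleton.elim _ _
        map_mul' := fun _ _ => Subsingleton.elim _ _
        map_zero' := Subsingleton.elim _ _
        map_add' := fun _ _ => Subsingleton.elim _ _
        commutes' := fun _ => Subsingleton.elim _ _
        map_star' := fun _ => Subsingleton.elim _ _ }
    exact ⟨φ, fun v w => Subsingleton.elim _ _, fun ψ _ =>
      StarAlgHom.ext fun x => Subsingleton.elim _ _⟩
  · obtain ⟨φ, hφ⟩ := exists_hom_of_rep ⟨B, _, hB, U, hU⟩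
    exact ⟨φ, hφ, fun ψ hψ => huniq ψ φ hψ hφ⟩

end existence

/-- **Main theorem.** For every finite set `V` the quantum automorphism group of the complete
hypergraph is the classical symmetric group `S_V`; the quantum permutation group `S_V⁺` exists, and
for all realisations of the two universal C*-algebras, the canonical map
`π : C(S_V⁺) → C(Aut⁺(Γ_V))` is injective (equivalently, an isomorphism) if and only if
`|V| ≤ 3`. -/
theorem result (V : Type u) [Fintype V] [DecidableEq V] :
    IsQuantumAut (complete V) (Equiv.Perm V → ℂ) (permV V) (permE V) ∧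
    (∃ (A : Type u) (_ : CStarAlgebra A) (m : Matrix V V A), IsQuantumPerm V A m) ∧
    ∀ (A : Type u) [CStarAlgebra A] (m : Matrix V V A), IsQuantumPerm V A m →
      ∀ (B : Type u) [CStarAlgebra B] (uV : Matrix V V B)
        (uE : Matrix (Finset V × Finset V) (Finset V × Finset V) B),
        IsQuantumAut (complete V) B uV uE →
          ∃ π : A →⋆ₐ[ℂ] B, (∀ v w, π (m v w) = uV v w) ∧
            (Function.Injective π ↔ Fintype.card V ≤ 3) ∧
            (Function.Bijective π ↔ Fintype.card V ≤ 3) := by
  refine ⟨quantumAut_complete, exists_quantumPerm, ?_⟩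
  intro A _ m hA B _ uV uE hB
  obtain ⟨π, hπ, -⟩ := hA.universal B uV hB.rel.magicV
  obtain ⟨h1, h2⟩ := canonical_bijective_iff hA hB hπ
  exact ⟨π, hπ, ⟨h1, fun h => (h2 h).injective⟩, ⟨fun h => h1 h.injective, h2⟩⟩

end Pool.Agent.Results.MP_8cf907_al.CompleteHypergraph
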